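import Pool.Agent.Lib.MP_c46995_nt.Core

/-!
Coefficients of `∑ i < M, L(X^(4^i))`, and the valuation statement for the truncated product.
-/

namespace Pool.Agent.Lib.MP_c46995_nt

open PowerSeries

noncomputable section

/-- coefficients of `L` -/
def c (n : ℕ) : ℤ :=
  if n % 2 = 1 then 2 else if n % 8 = 2 then 1 else if n % 8 = 6 then 3 else 0

theorem c_add (n : ℕ) : c (n + 8) = c n := by
  unfold c
  have h1 : (n + 8) % 2 = n % 2 := by omega
  have h2 : (n + 8) % 8 = n % 8 := by omega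
  rw [h1, h2]

theorem mk_c_mul : (PowerSeries.mk c : ℤ⟦X⟧) * (1 - X ^ 8) = p := by
  ext n
  rw [mul_sub, mul_one, map_sub, coeff_mul_X_pow']
  simp only [coeff_mk]
  have hp : p = 2 * X ^ 1 + 2 * X ^ 3 + 2 * X ^ 5 + 2 * X ^ 7 + X ^ 2 + 3 * X ^ 6 := by
    unfold p; ring
  have h2 : ∀ k : ℕ, coeff n ((2 : ℤ⟦X⟧) * X ^ k) = if n = k then 2 else 0 := by
    intro k
    have : (2 : ℤ⟦X⟧) = C (2 : ℤ) := by simp
    rw [this, coeff_C_mul, coeff_X_pow]; simp
  have h3 : ∀ k : ℕ, coeff n ((3 : ℤ⟦X⟧) * X ^ k) = if n = k then 3 else 0 := by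
    intro k
    have : (3 : ℤ⟦X⟧) = C (3 : ℤ) := by simp
    rw [this, coeff_C_mul, coeff_X_pow]; simp
  rw [hp]
  simp only [map_add, h2, h3, coeff_X_pow]
  by_cases hn : 8 ≤ n
  · obtain ⟨k, rfl⟩ := Nat.exists_eq_add_of_le' hn
    rw [if_pos hn, Nat.add_sub_cancel, c_add]
    simp only [sub_self]
    rw [if_neg (by omega), if_neg (by omega), if_neg (by omega), if_neg (by omega),
      if_neg (by omega), if_neg (by omega)]
    simp
  · rw [if_neg hn]
    push Not at hn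
    interval_cases n <;> simp [c]

theorem L_eq : L = PowerSeries.mk c := by
  have h1 : L = (PowerSeries.mk c : ℤ⟦X⟧) * (1 - X ^ 8) * d := by rw [mk_c_mul, L]
  rw [h1, mul_assoc, mul_comm (1 - X ^ 8) d, d_mul, mul_one]

theorem coeff_L (n : ℕ) : coeff n L = c n := by rw [L_eq, coeff_mk]

theorem coeff_ex_mul (i m : ℕ) (f : ℤ⟦X⟧) : coeff (4 ^ i * m) (ex i f) = coeff m f :=
  PowerSeries.coeff_expand_mul _ _ f m

theorem coeff_ex_of_not_dvd (i n : ℕ) (f : ℤ⟦X⟧) (h : ¬ 4 ^ i ∣ n) : coeff n (ex i f) = 0 :=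
  PowerSeries.coeff_expand_of_not_dvd _ _ f h

theorem coeff_ex_succ (i m : ℕ) (f : ℤ⟦X⟧) :
    coeff (4 * m) (ex (i + 1) f) = coeff m (ex i f) := by
  by_cases h : 4 ^ i ∣ m
  · obtain ⟨k, rfl⟩ := h
    rw [show 4 * (4 ^ i * k) = 4 ^ (i + 1) * k by ring, coeff_ex_mul, coeff_ex_mul]
  · rw [coeff_ex_of_not_dvd i m f h, coeff_ex_of_not_dvd]
    intro h'
    apply h
    rw [pow_succ, mul_comm] at h'
    exact Nat.dvd_of_mul_dvd_mul_left (by norm_num) h'

/-- the coefficient of `∑ i < M, L(X^(4^i))` -/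
def sig (M n : ℕ) : ℤ := coeff n (∑ i ∈ Finset.range M, ex i L)

theorem sig_dichotomy (M : ℕ) : ∀ n : ℕ, 1 ≤ n → n < 4 ^ M → sig M n = 2 ∨ Odd (sig M n) := by
  induction M with
  | zero => intro n h1 h2; simp at h2; omega
  | succ M ih =>
    intro n h1 h2
    have hsum : sig (M + 1) n = c n + ∑ i ∈ Finset.range M, coeff n (ex (i + 1) L) := by
      unfold sig
      rw [map_sum, Finset.sum_range_succ', add_comm]
      congr 1
      have := coeff_ex_mul 0 n L
      simp only [pow_zero, one_mul] at this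
      rw [this, coeff_L]
    by_cases h4 : 4 ∣ n
    · obtain ⟨m, rfl⟩ := h4
      have hc : c (4 * m) = 0 := by
        unfold c
        rw [if_neg (by omega), if_neg (by omega), if_neg (by omega)]
      rw [hc, zero_add] at hsum
      have : sig (M + 1) (4 * m) = sig M m := by
        rw [hsum]
        unfold sig
        rw [map_sum]
        exact Finset.sum_congr rfl (fun i _ => coeff_ex_succ i m L)
      rw [this]
      apply ih m (by omega)
      rw [pow_succ] at h2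
      omega
    · have hz : ∑ i ∈ Finset.range M, coeff n (ex (i + 1) L) = 0 := by
        apply Finset.sum_eq_zero
        intro i _
        apply coeff_ex_of_not_dvd
        intro h
        exact h4 (dvd_trans (by rw [pow_succ]; exact dvd_mul_left _ _) h)
      rw [hsum, hz, add_zero]
      unfold c
      rcases Nat.lt_or_ge (n % 8) 8 with h8 | h8
      · have : n % 8 = 1 ∨ n % 8 = 2 ∨ n % 8 = 3 ∨ n % 8 = 5 ∨ n % 8 = 6 ∨ n % 8 = 7 := by omega
        rcases this with h | h | h | h | h | h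
        · left; rw [if_pos (by omega)]
        · right; rw [if_neg (by omega), if_pos h]; decide
        · left; rw [if_pos (by omega)]
        · left; rw [if_pos (by omega)]
        · right; rw [if_neg (by omega), if_neg (by omega), if_pos h]; decide
        · left; rw [if_pos (by omega)]
      · omega

/-- coefficient of the truncated product -/
theorem coeff_prod (s u M n : ℕ) (hn : 1 ≤ n) : ∃ r : ℤ,
    coeff n ((∏ i ∈ Finset.range M, ex i B) ^ (2 ^ (s + 2) * u)) =
      2 ^ (s + 3) * u * sig M n + 2 ^ (s + 5) * r := by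
  obtain ⟨Q, hQ⟩ := prod_pow s u M
  refine ⟨coeff n Q, ?_⟩
  rw [hQ]
  have e1 : (2 : ℤ⟦X⟧) ^ (s + 3) * (u : ℤ⟦X⟧) = C ((2 : ℤ) ^ (s + 3) * (u : ℤ)) := by
    simp
  have e2 : (2 : ℤ⟦X⟧) ^ (s + 5) = C ((2 : ℤ) ^ (s + 5)) := by simp
  rw [e1, e2, map_add, map_add, coeff_C_mul, coeff_C_mul, coeff_one, if_neg (by omega), zero_add]
  rfl

theorem four_pow_dvd_iff (a k : ℕ) (o : ℤ) (ho : Odd o) :
    (4 : ℤ) ^ k ∣ 2 ^ a * o ↔ 2 * k ≤ a := by
  have h4 : (4 : ℤ) ^ k = 2 ^ (2 * k) := by rw [pow_mul]; norm_num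
  rw [h4]
  constructor
  · intro h
    have hc : IsCoprime ((2 : ℤ) ^ (2 * k)) o := by
      apply IsCoprime.pow_left
      rw [Int.isCoprime_iff_gcd_eq_one]
      obtain ⟨w, rfl⟩ := ho
      have : IsCoprime (2 : ℤ) (2 * w + 1) := ⟨-w, 1, by ring⟩
      exact Int.isCoprime_iff_gcd_eq_one.mp this
    have h' := hc.dvd_of_dvd_mul_right h
    exact (pow_dvd_pow_iff (by norm_num) (by rw [Int.isUnit_iff]; omega)).mp h'
  · intro h
    exact dvd_mul_of_dvd_left (pow_dvd_pow _ h) _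

theorem emult_congr (a : ℕ) (x y : ℤ) (hx : ∃ o, Odd o ∧ x = 2 ^ a * o)
    (hy : ∃ o, Odd o ∧ y = 2 ^ a * o) : emultiplicity (4 : ℤ) x = emultiplicity (4 : ℤ) y := by
  obtain ⟨o, ho, rfl⟩ := hx
  obtain ⟨o', ho', rfl⟩ := hy
  rw [emultiplicity_eq_emultiplicity_iff]
  intro n
  rw [four_pow_dvd_iff a n o ho, four_pow_dvd_iff a n o' ho']

/-- main valuation statement: the power of two is independent of the odd number `u` -/
theorem coeff_prod_val (s M n : ℕ) (hn : 1 ≤ n) (hM : n < 4 ^ M) :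
    ∃ a : ℕ, ∀ u : ℕ, Odd u → ∃ o : ℤ, Odd o ∧
      coeff n ((∏ i ∈ Finset.range M, ex i B) ^ (2 ^ (s + 2) * u)) = 2 ^ a * o := by
  rcases sig_dichotomy M n hn hM with h | h
  · refine ⟨s + 4, fun u hu => ?_⟩
    obtain ⟨r, hr⟩ := coeff_prod s u M n hn
    refine ⟨u + 2 * r, ?_, ?_⟩
    · have : Odd (u : ℤ) := by exact_mod_cast hu
      exact this.add_even (even_two_mul r)
    · rw [hr, h]; ring
  · refine ⟨s + 3, fun u hu => ?_⟩
    obtain ⟨r, hr⟩ := coeff_prod s u M n hn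
    refine ⟨u * sig M n + 4 * r, ?_, ?_⟩
    · have : Odd (u : ℤ) := by exact_mod_cast hu
      refine (this.mul h).add_even ⟨2 * r, by ring⟩
    · rw [hr]; ring

end

end Pool.Agent.Lib.MP_c46995_nt
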