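import Mathlib

/-!
Algebraic core: the congruence
`G^t = 1 + 2^s u L' mod 2^(s+2)` for `t = 2^(s-1) u`, `s ≥ 3`.
-/

namespace Pool.Agent.Lib.MP_c46995_nt

open PowerSeries

noncomputable section

/-- `1 / (1 - X)` -/
def e : ℤ⟦X⟧ := PowerSeries.mk 1

theorem e_mul : e * (1 - X) = 1 := PowerSeries.mk_one_mul_one_sub_eq_one ℤ

theorem four_pow_ne (i : ℕ) : (4 : ℕ) ^ i ≠ 0 := pow_ne_zero _ (by norm_num)

/-- substitution `X ↦ X^(4^i)` -/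
def ex (i : ℕ) : ℤ⟦X⟧ →ₐ[ℤ] ℤ⟦X⟧ := PowerSeries.expand (4 ^ i) (four_pow_ne i)

/-- `1/(1 - X^8)` -/
def d : ℤ⟦X⟧ := PowerSeries.expand 8 (by norm_num) e

theorem d_mul : d * (1 - X ^ 8) = 1 := by
  have h := congrArg (PowerSeries.expand 8 (by norm_num) : ℤ⟦X⟧ →ₐ[ℤ] ℤ⟦X⟧) e_mul
  rw [map_mul, map_sub, map_one, PowerSeries.expand_X] at h
  exact h

/-- `B = (1 - X^4)/(1-X)^4` -/
def B : ℤ⟦X⟧ := e ^ 4 * (1 - X ^ 4)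

/-- numerator polynomial -/
def p : ℤ⟦X⟧ := 2 * X * (1 + X ^ 2 + X ^ 4 + X ^ 6) + X ^ 2 + 3 * X ^ 6

/-- `L' = (log B)/2` modulo `4` -/
def L : ℤ⟦X⟧ := p * d

def q : ℤ⟦X⟧ := (4)*X^2 + (-39)*X^3 + (201)*X^4 + (-694)*X^5 + (1766)*X^6 + (-3513)*X^7
  + (5698)*X^8 + (-7772)*X^9 + (9075)*X^10 + (-9098)*X^11 + (7800)*X^12 + (-5800)*X^13
  + (4043)*X^14 + (-3046)*X^15 + (2558)*X^16 + (-2052)*X^17 + (1357)*X^18 + (-687)*X^19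
  + (255)*X^20 + (-66)*X^21 + (11)*X^22 + (-1)*X^23

theorem poly_id : (1 - X ^ 4 : ℤ⟦X⟧) ^ 4 * (1 - X ^ 8) =
    (1 - X) ^ 16 * (1 - X ^ 8) + 8 * p * (1 - X) ^ 16 + 32 * q := by
  unfold p q
  ring

theorem B_pow_four : ∃ Q : ℤ⟦X⟧, B ^ 4 = 1 + 8 * L + 32 * Q := by
  refine ⟨q * e ^ 16 * d, ?_⟩
  have h1 : e ^ 16 * (1 - X : ℤ⟦X⟧) ^ 16 = 1 := by rw [← mul_pow, e_mul, one_pow]
  have h2 := d_mul
  have h3 := poly_id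
  have key : B ^ 4 = e ^ 16 * (1 - X ^ 4) ^ 4 * (d * (1 - X ^ 8)) := by
    rw [h2, B]; ring
  rw [key]
  calc e ^ 16 * (1 - X ^ 4) ^ 4 * (d * (1 - X ^ 8))
      = e ^ 16 * d * ((1 - X ^ 4) ^ 4 * (1 - X ^ 8)) := by ring
    _ = e ^ 16 * d * ((1 - X) ^ 16 * (1 - X ^ 8) + 8 * p * (1 - X) ^ 16 + 32 * q) := by rw [h3]
    _ = (e ^ 16 * (1 - X) ^ 16) * (d * (1 - X ^ 8)) + 8 * (p * d) * (e ^ 16 * (1 - X) ^ 16)
        + 32 * (q * e ^ 16 * d) := by ring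
    _ = 1 + 8 * L + 32 * (q * e ^ 16 * d) := by rw [h1, h2, L]; ring

/-- lifting along squaring -/
theorem B_pow_two_pow (s : ℕ) : ∃ Q : ℤ⟦X⟧,
    B ^ (2 ^ (s + 2)) = 1 + 2 ^ (s + 3) * L + 2 ^ (s + 5) * Q := by
  induction s with
  | zero =>
    obtain ⟨Q, hQ⟩ := B_pow_four
    refine ⟨Q, ?_⟩
    norm_num
    exact hQ
  | succ s ih =>
    obtain ⟨Q, hQ⟩ := ih
    refine ⟨Q + 2 ^ s * (L + 4 * Q) ^ 2, ?_⟩
    have : B ^ (2 ^ (s + 1 + 2)) = (B ^ (2 ^ (s + 2))) ^ 2 := by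
      rw [← pow_mul]; congr 1
    rw [this, hQ]
    ring

theorem B_pow (s u : ℕ) : ∃ Q : ℤ⟦X⟧,
    B ^ (2 ^ (s + 2) * u) = 1 + 2 ^ (s + 3) * u * L + 2 ^ (s + 5) * Q := by
  obtain ⟨Q, hQ⟩ := B_pow_two_pow s
  induction u with
  | zero => exact ⟨0, by simp⟩
  | succ u ih =>
    obtain ⟨R, hR⟩ := ih
    refine ⟨R + Q + 2 ^ (s + 1) * (u * L + 4 * R) * (L + 4 * Q), ?_⟩
    rw [mul_add, mul_one, pow_add, hR, hQ]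
    push_cast
    ring

theorem ex_pow (s u i : ℕ) : ∃ Q : ℤ⟦X⟧,
    (ex i B) ^ (2 ^ (s + 2) * u) = 1 + 2 ^ (s + 3) * u * ex i L + 2 ^ (s + 5) * Q := by
  obtain ⟨Q, hQ⟩ := B_pow s u
  refine ⟨ex i Q, ?_⟩
  rw [← map_pow, hQ]
  simp only [map_add, map_mul, map_one, map_pow, map_natCast, map_ofNat]

theorem prod_pow (s u M : ℕ) : ∃ Q : ℤ⟦X⟧,
    (∏ i ∈ Finset.range M, ex i B) ^ (2 ^ (s + 2) * u) =
      1 + 2 ^ (s + 3) * u * (∑ i ∈ Finset.range M, ex i L) + 2 ^ (s + 5) * Q := by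
  induction M with
  | zero => exact ⟨0, by simp⟩
  | succ M ih =>
    obtain ⟨R, hR⟩ := ih
    obtain ⟨Q, hQ⟩ := ex_pow s u M
    rw [Finset.prod_range_succ, mul_pow, hR, hQ, Finset.sum_range_succ]
    set A := ∑ i ∈ Finset.range M, ex i L
    refine ⟨R + Q + 2 ^ (s + 1) * (u * A + 4 * R) * (u * ex M L + 4 * Q), ?_⟩
    ring

end

end Pool.Agent.Lib.MP_c46995_nt
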