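import Pool.Agent.Lib.MP_c46995_nt.Coeff

/-!
The infinite product `(1 - X)^t ∏' i, (1 - X^(4^i))^(3t)` and its inverse.
-/

namespace Pool.Agent.Lib.MP_c46995_nt

open PowerSeries PowerSeries.WithPiTopology Filter

noncomputable section

theorem multipliable_shift (t M : ℕ) :
    Multipliable fun i : ℕ => ((1 : ℤ⟦X⟧) - X ^ 4 ^ (i + M)) ^ (3 * t) := by
  have h : ∀ i : ℕ, ∃ g : ℤ⟦X⟧,
      ((1 : ℤ⟦X⟧) - X ^ 4 ^ (i + M)) ^ (3 * t) = 1 + X ^ 4 ^ (i + M) * g := by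
    intro i
    have : ((1 : ℤ⟦X⟧) - X ^ 4 ^ (i + M)) - 1 ∣
        ((1 : ℤ⟦X⟧) - X ^ 4 ^ (i + M)) ^ (3 * t) - 1 ^ (3 * t) :=
      sub_dvd_pow_sub_pow _ _ _
    obtain ⟨g, hg⟩ := this
    refine ⟨-g, ?_⟩
    rw [one_pow] at hg
    linear_combination hg
  choose g hg using h
  simp_rw [hg]
  apply multipliable_one_add_of_tendsto_order_atTop_nhds_top
  refine ENat.tendsto_nhds_top_iff_natCast_lt.mpr (fun n ↦ Filter.eventually_atTop.mpr ⟨n, ?_⟩)
  intro m hm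
  have h1 : (X ^ 4 ^ (m + M) : ℤ⟦X⟧).order + (g m).order ≤ (X ^ 4 ^ (m + M) * g m).order :=
    le_order_mul _ _
  rw [order_X_pow] at h1
  refine lt_of_lt_of_le ?_ h1
  refine lt_of_lt_of_le ?_ le_self_add
  have : m + M < 4 ^ (m + M) := Nat.lt_pow_self (by norm_num)
  have : n < 4 ^ (m + M) := by omega
  exact_mod_cast this

/-- The infinite product in the definition converges. -/
theorem multipliable_prod (t : ℕ) :
    Multipliable fun i : ℕ => ((1 : ℤ⟦X⟧) - X ^ 4 ^ i) ^ (3 * t) :=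
  multipliable_shift t 0

/-- The denominator `(1 - x)^t ∏_{i ≥ 0} (1 - x^(4^i))^(3t)`. -/
def den (t : ℕ) : ℤ⟦X⟧ := (1 - X) ^ t * ∏' i : ℕ, (1 - X ^ 4 ^ i) ^ (3 * t)

/-- the tail of the product -/
def tail (t M : ℕ) : ℤ⟦X⟧ := ∏' i : ℕ, ((1 : ℤ⟦X⟧) - X ^ 4 ^ (i + M)) ^ (3 * t)

/-- the tail of the product is `1` up to `X^(4^M)`. -/
theorem coeff_tail (t M j : ℕ) (hj : j < 4 ^ M) :
    coeff j (tail t M) = coeff j (1 : ℤ⟦X⟧) := by
  have ht := (multipliable_shift t M).hasProd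
  have hc : Tendsto (fun s : Finset ℕ => coeff j (∏ i ∈ s, ((1 : ℤ⟦X⟧) - X ^ 4 ^ (i + M)) ^ (3 * t)))
      atTop (nhds (coeff j (tail t M))) :=
    ((continuous_coeff ℤ j).tendsto _).comp ht
  have hconst : ∀ s : Finset ℕ,
      coeff j (∏ i ∈ s, ((1 : ℤ⟦X⟧) - X ^ 4 ^ (i + M)) ^ (3 * t)) = coeff j (1 : ℤ⟦X⟧) := by
    intro s
    have : ∃ g : ℤ⟦X⟧, ∏ i ∈ s, ((1 : ℤ⟦X⟧) - X ^ 4 ^ (i + M)) ^ (3 * t) = 1 + X ^ 4 ^ M * g := by
      induction s using Finset.induction_on with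
      | empty => exact ⟨0, by simp⟩
      | insert a s ha ih =>
        obtain ⟨g, hg⟩ := ih
        rw [Finset.prod_insert ha, hg]
        have : ((1 : ℤ⟦X⟧) - X ^ 4 ^ (a + M)) - 1 ∣
            ((1 : ℤ⟦X⟧) - X ^ 4 ^ (a + M)) ^ (3 * t) - 1 ^ (3 * t) :=
          sub_dvd_pow_sub_pow _ _ _
        obtain ⟨k, hk⟩ := this
        rw [one_pow] at hk
        have hd : (X : ℤ⟦X⟧) ^ 4 ^ M ∣ X ^ 4 ^ (a + M) :=
          pow_dvd_pow _ (Nat.pow_le_pow_right (by norm_num) (by omega))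
        obtain ⟨w, hw⟩ := hd
        have hk' : ((1 : ℤ⟦X⟧) - X ^ 4 ^ (a + M)) ^ (3 * t) = 1 - X ^ 4 ^ M * w * k := by
          rw [hw] at hk ⊢
          linear_combination hk
        rw [hk']
        exact ⟨g - w * k - X ^ 4 ^ M * w * k * g, by ring⟩
    obtain ⟨g, hg⟩ := this
    rw [hg, map_add, coeff_X_pow_mul', if_neg (by omega), add_zero]
  simp_rw [hconst] at hc
  exact tendsto_nhds_unique tendsto_const_nhds hc |>.symm

theorem tail_eq (t M : ℕ) : ∃ g : ℤ⟦X⟧, tail t M = 1 + X ^ 4 ^ M * g := by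
  have : (X : ℤ⟦X⟧) ^ 4 ^ M ∣ tail t M - 1 := by
    rw [X_pow_dvd_iff]
    intro m hm
    rw [map_sub, coeff_tail t M m hm, sub_self]
  obtain ⟨g, hg⟩ := this
  exact ⟨g, by linear_combination hg⟩

theorem den_split (t M : ℕ) : den t =
    (1 - X) ^ t * (∏ i ∈ Finset.range M, (1 - X ^ 4 ^ i) ^ (3 * t)) * tail t M := by
  have := (multipliable_shift t M).prod_mul_tprod_nat_mul'
    (f := fun i : ℕ => ((1 : ℤ⟦X⟧) - X ^ 4 ^ i) ^ (3 * t))
  rw [den, ← this, mul_assoc, tail]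

/-- `1/(1 - X^(4^i))` -/
def E (i : ℕ) : ℤ⟦X⟧ := ex i e

theorem E_mul (i : ℕ) : E i * (1 - X ^ 4 ^ i) = 1 := by
  have h := congrArg (ex i) e_mul
  rw [map_mul, map_sub, map_one] at h
  have hX : ex i X = X ^ 4 ^ i := PowerSeries.expand_X _ _
  rw [hX] at h
  exact h

theorem E_zero : E 0 = e := by
  have h := E_mul 0
  rw [pow_zero, pow_one] at h
  have h2 := e_mul
  calc E 0 = E 0 * (e * (1 - X)) := by rw [h2, mul_one]
    _ = e * (E 0 * (1 - X)) := by ring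
    _ = e := by rw [h, mul_one]

theorem ex_B (i : ℕ) : ex i B = E i ^ 4 * (1 - X ^ 4 ^ (i + 1)) := by
  have hX : ex i X = X ^ 4 ^ i := PowerSeries.expand_X _ _
  rw [B, map_mul, map_pow, map_sub, map_one, map_pow, hX, ← pow_mul, ← pow_succ, E]

theorem prod_B (M : ℕ) : (∏ i ∈ Finset.range M, ex i B) * E M =
    e * ∏ i ∈ Finset.range M, E i ^ 3 := by
  induction M with
  | zero => simp [E_zero]
  | succ M ih =>
    rw [Finset.prod_range_succ, Finset.prod_range_succ, ex_B]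
    have h := E_mul (M + 1)
    calc (∏ i ∈ Finset.range M, ex i B) * (E M ^ 4 * (1 - X ^ 4 ^ (M + 1))) * E (M + 1)
        = ((∏ i ∈ Finset.range M, ex i B) * E M) * E M ^ 3 * (E (M + 1) * (1 - X ^ 4 ^ (M + 1))) := by
          ring
      _ = e * (∏ i ∈ Finset.range M, E i ^ 3) * E M ^ 3 := by rw [h, ih, mul_one]
      _ = _ := by ring

theorem inv_fin (t M : ℕ) : (e * ∏ i ∈ Finset.range M, E i ^ 3) ^ t *
    ((1 - X) ^ t * (∏ i ∈ Finset.range M, (1 - X ^ 4 ^ i) ^ (3 * t))) = 1 := by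
  have h1 : (∏ i ∈ Finset.range M, (1 - (X : ℤ⟦X⟧) ^ 4 ^ i) ^ (3 * t)) =
      (∏ i ∈ Finset.range M, (1 - (X : ℤ⟦X⟧) ^ 4 ^ i) ^ 3) ^ t := by
    rw [← Finset.prod_pow]
    exact Finset.prod_congr rfl (fun i _ => by rw [pow_mul])
  rw [h1, ← mul_pow, ← mul_pow]
  have h2 : e * (∏ i ∈ Finset.range M, E i ^ 3) *
      ((1 - X) * ∏ i ∈ Finset.range M, (1 - (X : ℤ⟦X⟧) ^ 4 ^ i) ^ 3) = 1 := by
    calc e * (∏ i ∈ Finset.range M, E i ^ 3) *
        ((1 - X) * ∏ i ∈ Finset.range M, (1 - (X : ℤ⟦X⟧) ^ 4 ^ i) ^ 3)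
        = (e * (1 - X)) * ((∏ i ∈ Finset.range M, E i ^ 3) *
          ∏ i ∈ Finset.range M, (1 - (X : ℤ⟦X⟧) ^ 4 ^ i) ^ 3) := by ring
      _ = 1 := by
          rw [e_mul, ← Finset.prod_mul_distrib, one_mul]
          apply Finset.prod_eq_one
          intro i _
          rw [← mul_pow, E_mul, one_pow]
  rw [h2, one_pow]

/-- The denominator is invertible in `ℤ⟦X⟧`. -/
theorem isUnit_den (t : ℕ) : IsUnit (den t) := by
  rw [PowerSeries.isUnit_iff_constantCoeff, den_split t 0]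
  have h0 : constantCoeff (tail t 0) = 1 := by
    rw [← coeff_zero_eq_constantCoeff_apply, coeff_tail t 0 0 (by norm_num), coeff_zero_one]
  simp [h0]

/-- The inverse of the denominator agrees with the truncated product up to `X^(4^M)`. -/
theorem coeff_inverse (t M n : ℕ) (hn : n < 4 ^ M) :
    coeff n (Ring.inverse (den t)) = coeff n ((∏ i ∈ Finset.range M, ex i B) ^ t) := by
  set I := Ring.inverse (den t) with hI
  have hIden : I * den t = 1 := Ring.inverse_mul_cancel _ (isUnit_den t)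
  obtain ⟨g, hg⟩ := tail_eq t M
  have h1 : I * tail t M = (e * ∏ i ∈ Finset.range M, E i ^ 3) ^ t := by
    rw [den_split t M] at hIden
    have h2 := inv_fin t M
    calc I * tail t M = I * tail t M * ((e * ∏ i ∈ Finset.range M, E i ^ 3) ^ t *
          ((1 - X) ^ t * (∏ i ∈ Finset.range M, (1 - X ^ 4 ^ i) ^ (3 * t)))) := by
            rw [h2, mul_one]
      _ = (e * ∏ i ∈ Finset.range M, E i ^ 3) ^ t * (I * ((1 - X) ^ t *
          (∏ i ∈ Finset.range M, (1 - X ^ 4 ^ i) ^ (3 * t)) * tail t M)) := by ring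
      _ = _ := by rw [hIden, mul_one]
  have h3 : ∃ w : ℤ⟦X⟧, E M ^ t = 1 + X ^ 4 ^ M * w := by
    have : E M = 1 + X ^ 4 ^ M * E M := by
      have := E_mul M
      linear_combination this
    have h4 : E M - 1 ∣ E M ^ t - 1 ^ t := sub_dvd_pow_sub_pow _ _ _
    obtain ⟨k, hk⟩ := h4
    rw [one_pow] at hk
    refine ⟨E M * k, ?_⟩
    have h5 : E M - 1 = X ^ 4 ^ M * E M := by linear_combination this
    rw [h5] at hk
    linear_combination hk
  obtain ⟨w, hw⟩ := h3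
  have h6 : I * (1 + X ^ 4 ^ M * g) =
      (∏ i ∈ Finset.range M, ex i B) ^ t * (1 + X ^ 4 ^ M * w) := by
    rw [← hg, h1, ← prod_B, mul_pow, hw]
  have h7 := congrArg (coeff n) h6
  have e1 : I * (1 + X ^ 4 ^ M * g) = I + X ^ 4 ^ M * (g * I) := by ring
  have e2 : (∏ i ∈ Finset.range M, ex i B) ^ t * (1 + X ^ 4 ^ M * w) =
      (∏ i ∈ Finset.range M, ex i B) ^ t + X ^ 4 ^ M * (w * (∏ i ∈ Finset.range M, ex i B) ^ t) := by
    ring
  rw [e1, e2, map_add, map_add, coeff_X_pow_mul', coeff_X_pow_mul', if_neg (by omega),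
    if_neg (by omega), add_zero, add_zero] at h7
  exact h7

/-- constant coefficient of the inverse -/
theorem coeff_zero_inverse (t : ℕ) : coeff 0 (Ring.inverse (den t)) = 1 := by
  rw [coeff_inverse t 0 0 (by norm_num)]
  simp

end

end Pool.Agent.Lib.MP_c46995_nt
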